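import Pool.Agent.Run7.h534.Dom.Src

/-!
# The sixth moment of zeta in every weight `|R|²`: a lower bound of the order of the diagonal

Unconditionally there are positive `δ`, `α`, `c` such that for every large `T` there is a smooth
partial sum `D(s) = ∑ V(n) n ^ (-s)` of zeta of length `T ^ α` (`0 ≤ V ≤ 1`, `V(n) = 1` for
`n ≤ T ^ (α/2)`, `V(n) = 0` for `n ≥ T ^ α`) with the following property: for every Dirichlet
polynomial `R(t) = ∑ r(n) n ^ (- i t)` over `n ≤ T ^ δ` with ARBITRARY complex coefficients and every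
interval `[U, U + H]` in `[T, 2T]` with `H ≥ T ^ (1 - δ)`, the sixth moment of zeta in the weight
`|R|²` over the interval is at least `c` times the same moment of `D`, a diagonal sum; the same holds
for the three factors `|ζ|²` at arbitrary shifted points `t + a_j`, `|a_j| ≤ T / 8`.

The theorem is the case `m = 3` of the theorem of helper311
(`MP_112ba8_nt.DominationEveryWeight`, library `Pool/Agent/Run7/h311/DM`).
-/

open Complex

namespace Pool.Agent.Results.MP_39df77_nt.DominationEveryWeight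

/-- the partial sum of zeta with the coefficients `V` at the point `1/2 + it` -/
noncomputable def D (V : ℕ → ℝ) (N : ℕ) (t : ℝ) : ℂ :=
  ∑ n ∈ Finset.Icc 1 N, (V n : ℂ) * (n : ℂ) ^ (-(1 / 2 + t * I))

/-- the Dirichlet polynomial `∑ r(n) n ^ (- i t)`, `n ≤ N` -/
noncomputable def R (r : ℕ → ℂ) (N : ℕ) (t : ℝ) : ℂ :=
  ∑ n ∈ Finset.Icc 1 N, r n * (n : ℂ) ^ (-(t * I))

theorem result : ∃ δ α c T₀ : ℝ, 0 < δ ∧ 0 < α ∧ 0 < c ∧ ∀ T : ℝ, T₀ ≤ T →
    ∃ V : ℕ → ℝ, (∀ n, 0 ≤ V n ∧ V n ≤ 1) ∧ (∀ n : ℕ, (n : ℝ) ≤ T ^ (α / 2) → V n = 1) ∧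
    (∀ n : ℕ, T ^ α ≤ n → V n = 0) ∧
    ∀ (N : ℕ) (r : ℕ → ℂ) (U H : ℝ), (N : ℝ) ≤ T ^ δ →
      T ≤ U → U + H ≤ 2 * T → T ^ (1 - δ) ≤ H →
      -- the sixth moment in the weight `|R|²`
      (c * ∫ t in U..(U + H), ‖D V ⌊T ^ α⌋₊ t‖ ^ 6 * ‖R r N t‖ ^ 2 ≤
        ∫ t in U..(U + H), ‖riemannZeta (1 / 2 + t * I)‖ ^ 6 * ‖R r N t‖ ^ 2) ∧
      -- the three factors at shifted points
      ∀ a : Fin 3 → ℝ, (∀ j, |a j| ≤ T / 8) →
        c * ∫ t in U..(U + H), (∏ j, ‖D V ⌊T ^ α⌋₊ (t + a j)‖ ^ 2) * ‖R r N t‖ ^ 2 ≤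
          ∫ t in U..(U + H), (∏ j, ‖riemannZeta (1 / 2 + (t + a j : ℝ) * I)‖ ^ 2) *
            ‖R r N t‖ ^ 2 := by
  obtain ⟨δ, α, c, T₀, hδ, hα, hc, h⟩ := Pool.Agent.Run7.h534.Dom.dom 3
  refine ⟨δ, α, c, max T₀ 0, hδ, hα, hc, fun T hT => ?_⟩
  obtain ⟨V, hV, hV1, hV0, hm⟩ := h T ((le_max_left _ _).trans hT)
  have hT0 : 0 ≤ T := (le_max_right _ _).trans hT
  refine ⟨V, hV, hV1, hV0, fun N r U H hN hU hUH hH => ⟨?_, fun a ha => ?_⟩⟩
  · have h1 := hm (fun _ => 0) N r U H (fun _ => by rw [abs_zero]; positivity) hN hU hUH hH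
    simp only [Finset.prod_const, Finset.card_univ, Fintype.card_fin, add_zero, ← pow_mul] at h1
    exact h1
  · exact hm a N r U H ha hN hU hUH hH

end Pool.Agent.Results.MP_39df77_nt.DominationEveryWeight
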