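import Pool.Agent.Run7.h701.PH.Fin
import Pool.Agent.Run7.h291.WC.Supw
import Pool.Agent.Run7.h651.WN.LAW
import Pool.Agent.Run7.h42.WN_MNB
import Pool.Agent.Run7.h772.WN_ZML

set_option autoImplicit false

/-!
# The phase of zeta in the sixth moment of a window

Let `k > 1` be real (`k = 3` is the sixth moment). At distance `δ` from the critical line the `2k`-th moment of zeta over a
window `[t, t + H]` comes from the points with `log |ζ(1/2 + δ + iu)| = k log (1/δ) + y √(log (1/δ) / 2)` with `y`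
bounded. This file determines the phase of zeta at these points: in almost all windows, of length up to `δ^(-D)` and from
the critical length `δ^(-(k² - 1) + o(1))` on, the argument of `ζ(1/2 + δ + iu)` is asymptotically uniformly distributed
in the moment measure `|ζ|^(2k) du` of the window, and independent of the modulus: the parts of the moment from the points
below the level `y` and with argument at most `β` is `(β + π) / (2π)` times the part from the points below the level, for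
all levels and all `β` at once. Below the position of the window this holds for all windows of length up to `δ^(-D)` at
once.

The joint moments with phases, `∏ |ζ|^(2 b_j) (ζ/|ζ|)^(n_j)` at several points outside tiny sets, are the starting library
`N748/MJ`; the law of the normalised logarithms under the measures with the weight `∏ |ζ|^(2k)` (`S_LAW`) is by helper651;
the window engine (window averages with a barrier, the maximal argument) is by helper291; the mean of the two-point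
function over long intervals (`S_MNB`) and the argument for large values in windows (`S_SUPW`) by helper42; the moments of
zeta without small primes near the line `1` (`S_ZML`) by helper772; the maximal inequality is by helper311. The passage to
the phases (the positive densities `1 + Re (c (ζ/|ζ|)^n)`, their joint laws and their windows) is by helper701.
-/

namespace Pool.Agent.Results.MP_39df77_nt.PhasesInWindows

open MeasureTheory Filter Topology

/-- the arithmetic factor of the moment conjecture,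
`a(k) = ∏_p (1 - 1/p)^(k²) ∑_m (k (k+1) ... (k+m-1) / m!)² p^(-m)` -/
noncomputable def ak (k : ℝ) : ℝ :=
  ∏' p : Nat.Primes, ((1 - 1 / (p : ℝ)) ^ (k ^ 2) *
    ∑' m : ℕ, (∏ i ∈ Finset.range m, (k + i) / ((i : ℝ) + 1)) ^ 2 * (1 / (p : ℝ)) ^ m)

/-- the modulus of zeta at distance `δ` from the critical line and height `u` -/
noncomputable def z (δ u : ℝ) : ℝ := ‖riemannZeta (1 / 2 + δ + u * Complex.I)‖

/-- the argument of zeta in `(-π, π]` at distance `δ` from the critical line and height `u` -/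
noncomputable def arg (δ u : ℝ) : ℝ := (riemannZeta (1 / 2 + δ + u * Complex.I)).arg

/-- the level `y`: `k log (1/δ) + y √(log (1/δ) / 2)` -/
noncomputable def V (k y δ : ℝ) : ℝ := k * Real.log (1 / δ) + y * Real.sqrt (Real.log (1 / δ) / 2)

/-- the part of the mean of `|ζ|^(2k)` over the window `[t, t + H]` which comes from the points at which `log |ζ|` is at
most the level `y` -/
noncomputable def W (k y δ t H : ℝ) : ℝ :=
  (1 / H) * ∫ u in Set.Icc t (t + H) ∩ {u : ℝ | Real.log (z δ u) ≤ V k y δ}, z δ u ^ (2 * k)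

/-- the part of the mean of `|ζ|^(2k)` over the window `[t, t + H]` which comes from the points at which `log |ζ|` is at
most the level `y` and the argument is at most `β` -/
noncomputable def Wa (k y β δ t H : ℝ) : ℝ :=
  (1 / H) * ∫ u in Set.Icc t (t + H) ∩ {u : ℝ | Real.log (z δ u) ≤ V k y δ ∧ arg δ u ≤ β}, z δ u ^ (2 * k)

/-- the prediction -/
noncomputable def P (k δ : ℝ) : ℝ := ak k * (2 * δ) ^ (-(k ^ 2))

/-- the position of the length `H` in the transition: `H = δ^(-(k² - 1)) exp (k x √(2 log (1/δ)))` for `x = pos k δ H` -/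
noncomputable def pos (k δ H : ℝ) : ℝ := Real.log (H * δ ^ (k ^ 2 - 1)) / (k * Real.sqrt (2 * Real.log (1 / δ)))

open Run7.h291.WN
open Pool.Agent.N748.MG hiding Phi

lemma conv {k δ : ℝ} (hδ : 0 < δ) (I : ℝ) : I / P k δ = (2 * δ) ^ (k ^ 2) / akR k * I := by
  have h1 : P k δ = akR k * (2 * δ) ^ (-(k ^ 2)) := rfl
  have h2 := akp k
  have h3 : (0:ℝ) < (2 * δ) ^ (k ^ 2) := Real.rpow_pos_of_pos (by linarith) _
  rw [h1, Real.rpow_neg (by linarith)]
  field_simp

lemma P_pos {k δ : ℝ} (hδ : 0 < δ) : 0 < P k δ := by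
  have h1 : P k δ = akR k * (2 * δ) ^ (-(k ^ 2)) := rfl
  rw [h1]
  exact mul_pos (akp k) (Real.rpow_pos_of_pos (by linarith) _)

lemma zmz (δ u : ℝ) : z δ u = mz δ u := by
  unfold z mz pw
  rfl

lemma argar (δ u : ℝ) : arg δ u = Run7.h701.PH.ar δ u := by
  unfold arg Run7.h701.PH.ar pw
  rfl

/-- the weight below the level -/
lemma ind_eq {k y δ : ℝ} (hk : 0 < k) (u : ℝ) : Run7.h701.LW.Zy k y δ u = (2 * δ) ^ (k ^ 2) / akR k *
    ({u : ℝ | Real.log (z δ u) ≤ V k y δ}.indicator (fun u => z δ u ^ (2 * k)) u) := by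
  unfold Run7.h701.LW.Zy
  have hz0 : 0 ≤ z δ u := norm_nonneg _
  rcases hz0.eq_or_lt with h4 | h4
  · have h5 : z δ u ^ (2 * k) = 0 := by
      rw [← h4, Real.zero_rpow (by positivity)]
    have h6 : Zk k δ u = 0 := by
      unfold Zk
      rw [← zmz, h5, mul_zero]
    simp only [Set.indicator_apply, h5, h6, ite_self, mul_zero]
  · have h5 : mz δ u ≤ Real.exp (Run7.h291.WC.Vl k y δ) ↔ Real.log (z δ u) ≤ V k y δ := by
      rw [← zmz]
      exact (Real.log_le_iff_le_exp h4).symm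
    by_cases h6 : Real.log (z δ u) ≤ V k y δ
    · rw [Set.indicator_of_mem (show u ∈ {v : ℝ | mz δ v ≤ Real.exp (Run7.h291.WC.Vl k y δ)} from h5.2 h6),
        Set.indicator_of_mem (show u ∈ {u : ℝ | Real.log (z δ u) ≤ V k y δ} from h6)]
      unfold Zk
      rw [← zmz]
    · rw [Set.indicator_of_notMem (show u ∉ {v : ℝ | mz δ v ≤ Real.exp (Run7.h291.WC.Vl k y δ)} from
          fun h7 => h6 (h5.1 h7)),
        Set.indicator_of_notMem (show u ∉ {u : ℝ | Real.log (z δ u) ≤ V k y δ} from h6), mul_zero]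

lemma z_meas {δ : ℝ} (h1 : δ ≤ 1 / 16) : Measurable fun u => z δ u := by
  have h2 : (fun u => z δ u) = fun u => mz δ u := funext fun u => zmz δ u
  rw [h2]
  exact (TMA.cont h1).measurable

lemma convW {k y δ t H : ℝ} (hk : 0 < k) (hδ : 0 < δ) (h1 : δ ≤ 1 / 16) (hH : 0 < H) :
    W k y δ t H / P k δ = Run7.h701.LW.Jw k y δ t H := by
  unfold Run7.h701.LW.Jw
  rw [conv hδ, intervalIntegral.integral_of_le (by linarith), ← integral_Icc_eq_integral_Ioc]
  unfold W
  have hmS : MeasurableSet {u : ℝ | Real.log (z δ u) ≤ V k y δ} :=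
    measurableSet_le (Real.measurable_log.comp (z_meas h1)) measurable_const
  rw [← setIntegral_indicator hmS]
  have h3 : ∫ u in Set.Icc t (t + H), Run7.h701.LW.Zy k y δ u =
      ∫ u in Set.Icc t (t + H), (2 * δ) ^ (k ^ 2) / akR k *
        ({u : ℝ | Real.log (z δ u) ≤ V k y δ}.indicator (fun u => z δ u ^ (2 * k)) u) :=
    integral_congr_ae (Eventually.of_forall fun u => ind_eq hk u)
  rw [h3, integral_const_mul]
  ring

lemma convWa {k y β δ t H : ℝ} (hk : 0 < k) (hδ : 0 < δ) (h1 : δ ≤ 1 / 16) (hH : 0 < H) :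
    Wa k y β δ t H / P k δ = Run7.h701.PH.Ja (-Real.pi) β k y δ t H := by
  unfold Run7.h701.PH.Ja
  rw [conv hδ, intervalIntegral.integral_of_le (by linarith), ← integral_Icc_eq_integral_Ioc]
  unfold Wa
  have hma : Measurable fun u => arg δ u := by
    have h2 : (fun u => arg δ u) = fun u => Run7.h701.PH.ar δ u := funext fun u => argar δ u
    rw [h2]
    exact Run7.h701.PH.ar_meas hδ h1
  have hmS : MeasurableSet {u : ℝ | Real.log (z δ u) ≤ V k y δ ∧ arg δ u ≤ β} :=
    (measurableSet_le (Real.measurable_log.comp (z_meas h1)) measurable_const).inter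
      (measurableSet_le hma measurable_const)
  rw [← setIntegral_indicator hmS]
  have h3 : ∫ u in Set.Icc t (t + H), (Run7.h701.PH.As (-Real.pi) β δ).indicator (Run7.h701.LW.Zy k y δ) u =
      ∫ u in Set.Icc t (t + H), (2 * δ) ^ (k ^ 2) / akR k *
        ({u : ℝ | Real.log (z δ u) ≤ V k y δ ∧ arg δ u ≤ β}.indicator (fun u => z δ u ^ (2 * k)) u) := by
    refine integral_congr_ae (Eventually.of_forall fun u => ?_)
    show (Run7.h701.PH.As (-Real.pi) β δ).indicator (Run7.h701.LW.Zy k y δ) u = (2 * δ) ^ (k ^ 2) / akR k *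
        ({u : ℝ | Real.log (z δ u) ≤ V k y δ ∧ arg δ u ≤ β}.indicator (fun u => z δ u ^ (2 * k)) u)
    by_cases ha : arg δ u ≤ β
    · have h6 : u ∈ Run7.h701.PH.As (-Real.pi) β δ := ⟨(Complex.neg_pi_lt_arg _).le, (argar δ u) ▸ ha⟩
      rw [Set.indicator_of_mem h6, ind_eq hk]
      congr 1
      by_cases h7 : Real.log (z δ u) ≤ V k y δ
      · rw [Set.indicator_of_mem (show u ∈ {u : ℝ | Real.log (z δ u) ≤ V k y δ} from h7),
          Set.indicator_of_mem (show u ∈ {u : ℝ | Real.log (z δ u) ≤ V k y δ ∧ arg δ u ≤ β} from ⟨h7, ha⟩)]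
      · rw [Set.indicator_of_notMem (show u ∉ {u : ℝ | Real.log (z δ u) ≤ V k y δ} from h7),
          Set.indicator_of_notMem (show u ∉ {u : ℝ | Real.log (z δ u) ≤ V k y δ ∧ arg δ u ≤ β} from fun h => h7 h.1)]
    · have h6 : u ∉ Run7.h701.PH.As (-Real.pi) β δ := fun h => ha ((argar δ u).symm ▸ h.2)
      rw [Set.indicator_of_notMem h6,
        Set.indicator_of_notMem (show u ∉ {u : ℝ | Real.log (z δ u) ≤ V k y δ ∧ arg δ u ≤ β} from fun h => ha h.2),
        mul_zero]
  rw [h3, integral_const_mul]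
  ring

lemma pos_eq {k δ H : ℝ} : Run7.h291.WC.pos k δ H = pos k δ H := by
  unfold Run7.h291.WC.pos pos Run7.h291.WC.sg
  have h4 : 2 * Real.log (1 / δ) = 2 ^ 2 * (Real.log (1 / δ) / 2) := by ring
  rw [h4, Real.sqrt_mul (by norm_num), Real.sqrt_sq (by norm_num)]
  congr 1
  ring

/-- from the differences to the quotients -/
lemma quot {a b c p e q0 ε : ℝ} (hp : 0 < p) (h : |a / p - c * (b / p)| < e) (hb : q0 / 2 ≤ b / p) (hq0 : 0 < q0)
    (he : 2 * e ≤ ε * q0) : |a / b - c| < ε := by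
  have hbp : 0 < b / p := by linarith
  have hb0 : b ≠ 0 := by
    intro h0
    rw [h0, zero_div] at hbp
    exact lt_irrefl _ hbp
  have h1 : a / b - c = (a / p - c * (b / p)) / (b / p) := by
    field_simp
  rw [h1, abs_div, abs_of_pos hbp, div_lt_iff₀ hbp]
  have he0 : 0 < e := lt_of_le_of_lt (abs_nonneg _) h
  have hε : 0 < ε := by
    by_contra h2
    have : ε * q0 ≤ 0 := mul_nonpos_of_nonpos_of_nonneg (not_lt.1 h2) hq0.le
    linarith
  have h3 : ε * (q0 / 2) ≤ ε * (b / p) := mul_le_mul_of_nonneg_left hb hε.le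
  linarith

theorem result (k D B : ℝ) (hk : 1 < k) (ε : ℝ) (hε : 0 < ε) :
    0 < ak k ∧ ∃ A lam δ0 : ℝ, 0 < lam ∧ 0 < δ0 ∧ δ0 ≤ 1 / 16 ∧ ∀ᶠ T : ℝ in atTop, ∀ δ : ℝ, 0 < δ → δ ≤ δ0 →
      lam * Real.log (1 / δ) ^ 2 ≤ δ * Real.log T →
      (∀ H : ℝ, 0 < H → H ≤ δ ^ (-D) →
        volume {t : ℝ | t ∈ Set.Icc 0 T ∧ ¬ ∀ y : ℝ, ∀ β ∈ Set.Icc (-Real.pi) Real.pi,
          |Wa k y β δ t H - (β + Real.pi) / (2 * Real.pi) * W k y δ t H| < ε * P k δ} ≤ ENNReal.ofReal (ε * T)) ∧
      (∀ H : ℝ, 0 < H → H ≤ δ ^ (-D) → -B ≤ pos k δ H →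
        volume {t : ℝ | t ∈ Set.Icc 0 T ∧ ¬ ∀ y : ℝ, -B ≤ y → ∀ β ∈ Set.Icc (-Real.pi) Real.pi,
          |Wa k y β δ t H / W k y δ t H - (β + Real.pi) / (2 * Real.pi)| < ε} ≤ ENNReal.ofReal (ε * T)) ∧
      volume {t : ℝ | t ∈ Set.Icc 0 T ∧ ¬ ∀ H : ℝ, 0 < H → H ≤ δ ^ (-D) → ∀ y : ℝ, -B ≤ y → y ≤ pos k δ H - ε →
        ∀ β ∈ Set.Icc (-Real.pi) Real.pi,
          |Wa k y β δ t H / W k y δ t H - (β + Real.pi) / (2 * Real.pi)| < ε} ≤ ENNReal.ofReal (ε * T) ∧
      volume {t : ℝ | t ∈ Set.Icc 0 T ∧ ¬ ∀ H : ℝ, 0 < H → H ≤ δ ^ (-D) → A ≤ pos k δ H → ∀ y : ℝ, -B ≤ y →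
        ∀ β ∈ Set.Icc (-Real.pi) Real.pi,
          |Wa k y β δ t H / W k y δ t H - (β + Real.pi) / (2 * Real.pi)| < ε} ≤ ENNReal.ofReal (ε * T) := by
  have hk0 : 0 < k := by linarith
  have hM := Run7.h42.WN.mnb Run7.h772.zml
  have hL := Run7.h651.WN.law
  have hS := Run7.h291.WC.supw
  refine ⟨akp k, ?_⟩
  have hD0 : 0 ≤ max D 0 := le_max_right _ _
  set q0 : ℝ := Run7.h291.WC.Phi (-B) with hq0
  have hq0p : 0 < q0 := Run7.h291.WC.Phi_pos _
  set e : ℝ := min (q0 / 2) (min (ε * q0 / 2) (ε / 2)) with he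
  have he0 : 0 < e := lt_min (by positivity) (lt_min (by positivity) (by positivity))
  have he1 : e ≤ q0 / 2 := min_le_left _ _
  have he2 : e ≤ ε * q0 / 2 := (min_le_right _ _).trans (min_le_left _ _)
  have he3 : e ≤ ε / 2 := (min_le_right _ _).trans (min_le_right _ _)
  have h1 := Run7.h701.PH.arc_a hM hL hS k (max D 0) hk hD0 e he0
  have g1 := Run7.h701.LW.law_a hM hL hS k (max D 0) hk hD0 e he0
  have h2 := Run7.h701.PH.arc_b hM hL hS k (max D 0) hk hD0 e he0
  have g2 := Run7.h701.LW.law_b hM hL hS k (max D 0) hk hD0 e he0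
  obtain ⟨A1, h3⟩ := Run7.h701.PH.arc_c hM hL hS k (max D 0) hk hD0 e he0
  obtain ⟨A2, g3⟩ := Run7.h701.LW.law_c hM hL hS k (max D 0) hk hD0 e he0
  refine ⟨max A1 A2, (((h1.and g1).and (h2.and g2)).and (h3.and g3)).mono ?_⟩
  rintro T δ hT hδ hδ1 ⟨⟨⟨h1, g1⟩, h2, g2⟩, h3, g3⟩
  have hT0 : 0 < T := by linarith
  have hP := P_pos (k := k) hδ
  have hDD : ∀ H : ℝ, H ≤ δ ^ (-D) → H ≤ δ ^ (-(max D 0)) := fun H hH =>
    hH.trans (Real.rpow_le_rpow_of_exponent_ge hδ (by linarith) (neg_le_neg (le_max_left _ _)))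
  have hsum : ENNReal.ofReal (e * T) + ENNReal.ofReal (e * T) ≤ ENNReal.ofReal (ε * T) := by
    rw [← ENNReal.ofReal_add (by positivity) (by positivity)]
    refine ENNReal.ofReal_le_ofReal ?_
    rw [← add_mul]
    exact mul_le_mul_of_nonneg_right (by linarith) hT0.le
  refine ⟨?_, ?_, ?_, ?_⟩
  · intro H hH0 hH
    have h5 : ENNReal.ofReal (e * T) ≤ ENNReal.ofReal (ε * T) :=
      ENNReal.ofReal_le_ofReal (mul_le_mul_of_nonneg_right (by linarith) hT0.le)
    refine le_trans (measure_mono ?_) ((h1 H hH0 (hDD H hH)).trans h5)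
    rintro t ⟨⟨t0, t1⟩, ht⟩
    push Not at ht
    obtain ⟨y, β, ⟨hβ1, hβ2⟩, hy⟩ := ht
    refine ⟨t0, t1, y, β, hβ1, hβ2, ?_⟩
    rw [← convW hk0 hδ hδ1 hH0, ← convWa hk0 hδ hδ1 hH0]
    have e1 : Wa k y β δ t H / P k δ - (β + Real.pi) / (2 * Real.pi) * (W k y δ t H / P k δ) =
        (Wa k y β δ t H - (β + Real.pi) / (2 * Real.pi) * W k y δ t H) / P k δ := by ring
    rw [e1, abs_div, abs_of_pos hP, le_div_iff₀ hP]
    refine le_trans ?_ hy
    exact mul_le_mul_of_nonneg_right (by linarith) hP.le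
  · intro H hH0 hH hB
    refine le_trans (measure_mono ?_) ((measure_union_le _ _).trans
      ((add_le_add (h1 H hH0 (hDD H hH)) (g1 H hH0 (hDD H hH))).trans hsum))
    rintro t ⟨⟨t0, t1⟩, ht⟩
    by_contra hcon
    simp only [Set.mem_union, not_or] at hcon
    obtain ⟨c1, c2⟩ := hcon
    apply ht
    intro y hy β hβ
    have d2 : |Run7.h701.LW.Jw k y δ t H - Run7.h291.WC.Phi (min y (Run7.h291.WC.pos k δ H))| < e := by
      by_contra h
      exact c2 ⟨t0, t1, y, not_lt.1 h⟩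
    have d1 : |Run7.h701.PH.Ja (-Real.pi) β k y δ t H - (β + Real.pi) / (2 * Real.pi) * Run7.h701.LW.Jw k y δ t H| < e := by
      by_contra h
      exact c1 ⟨t0, t1, y, β, hβ.1, hβ.2, not_lt.1 h⟩
    rw [← convW hk0 hδ hδ1 hH0] at d1 d2
    rw [← convWa hk0 hδ hδ1 hH0] at d1
    have d3 : q0 ≤ Run7.h291.WC.Phi (min y (Run7.h291.WC.pos k δ H)) :=
      Run7.h291.WC.Phi_mono (le_min hy (by rw [pos_eq]; exact hB))
    have d4 := (abs_lt.1 d2).1
    exact quot hP d1 (by linarith) hq0p (by linarith)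
  · refine le_trans (measure_mono ?_) ((measure_union_le _ _).trans ((add_le_add h2 g2).trans hsum))
    rintro t ⟨⟨t0, t1⟩, ht⟩
    by_contra hcon
    simp only [Set.mem_union, not_or] at hcon
    obtain ⟨c1, c2⟩ := hcon
    apply ht
    intro H hH0 hH y hy hyx β hβ
    have hyx' : y ≤ Run7.h291.WC.pos k δ H - e := by
      rw [pos_eq]
      linarith
    have d2 : |Run7.h701.LW.Jw k y δ t H - Run7.h291.WC.Phi y| < e := by
      by_contra h
      exact c2 ⟨t0, t1, H, hH0, hDD H hH, y, hyx', not_lt.1 h⟩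
    have d1 : |Run7.h701.PH.Ja (-Real.pi) β k y δ t H - (β + Real.pi) / (2 * Real.pi) * Run7.h701.LW.Jw k y δ t H| < e := by
      by_contra h
      exact c1 ⟨t0, t1, H, hH0, hDD H hH, y, β, hyx', hβ.1, hβ.2, not_lt.1 h⟩
    rw [← convW hk0 hδ hδ1 hH0] at d1 d2
    rw [← convWa hk0 hδ hδ1 hH0] at d1
    have d3 : q0 ≤ Run7.h291.WC.Phi y := Run7.h291.WC.Phi_mono hy
    have d4 := (abs_lt.1 d2).1
    exact quot hP d1 (by linarith) hq0p (by linarith)
  · refine le_trans (measure_mono ?_) ((measure_union_le _ _).trans ((add_le_add h3 g3).trans hsum))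
    rintro t ⟨⟨t0, t1⟩, ht⟩
    by_contra hcon
    simp only [Set.mem_union, not_or] at hcon
    obtain ⟨c1, c2⟩ := hcon
    apply ht
    intro H hH0 hH hA y hy β hβ
    rw [← pos_eq] at hA
    have d2 : |Run7.h701.LW.Jw k y δ t H - Run7.h291.WC.Phi y| < e := by
      by_contra h
      exact c2 ⟨t0, t1, H, hH0, hDD H hH, (le_max_right _ _).trans hA, y, not_lt.1 h⟩
    have d1 : |Run7.h701.PH.Ja (-Real.pi) β k y δ t H - (β + Real.pi) / (2 * Real.pi) * Run7.h701.LW.Jw k y δ t H| < e := by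
      by_contra h
      exact c1 ⟨t0, t1, H, hH0, hDD H hH, (le_max_left _ _).trans hA, y, β, hβ.1, hβ.2, not_lt.1 h⟩
    rw [← convW hk0 hδ hδ1 hH0] at d1 d2
    rw [← convWa hk0 hδ hδ1 hH0] at d1
    have d3 : q0 ≤ Run7.h291.WC.Phi y := Run7.h291.WC.Phi_mono hy
    have d4 := (abs_lt.1 d2).1
    exact quot hP d1 (by linarith) hq0p (by linarith)

end Pool.Agent.Results.MP_39df77_nt.PhasesInWindows
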