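import Pool.Agent.Run7.h701.WW.Gen

set_option autoImplicit false

/-!
# The sixth moment of zeta in windows near the critical line: the law at the critical length `δ^(-8)`

`z δ u = |ζ(1/2 + δ + iu)|`. The conjecture predicts a sixth moment `a_3 (2δ)^(-9)` at distance `δ` from the line (`a_3` is the
arithmetic factor of the problem). As soon as `δ log T / log² (1/δ)` is large, we determine the mean of `|ζ|^6` over windows
`[t, t + H]` of every length up to any power of `1/δ`, for almost all `t ∈ [0, T]`: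

* it is small compared with the prediction if `H` is much shorter than `δ^(-8)` and asymptotic to the prediction if `H` is much
  longer, all such `H` at once; the transition takes place at `H = δ^(-8) exp (3 x √(2 log (1/δ)))`, where the mean is `Φ(x)` times
  the prediction (`Φ` the normal distribution function); at `H = δ^(-8)` exactly it is one half of the prediction;
* for all `H ≥ δ^(-θ)`, `θ > 8`, up to the whole interval `[0, T]`, at once, the mean is asymptotic to the prediction if the points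
  with `|ζ| > δ^(-V)`, `V > 3`, are left out.

The general theorems (all real orders) are `MP_973905_nt.CriticalWindows` and `MP_112ba8_nt.MomentsInWindows`, by helper291 (plan,
statements, assembly), helper42, helper311, helper651 and helper772; the library of joint moments outside tiny sets (`N748/MJ`) is
in the starting tree. Here: the case of order 6 in the form of the problem, and the value at the critical length.
-/

namespace Pool.Agent.Results.MP_39df77_nt.SixthMomentWindows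

open MeasureTheory Filter Topology

/-- the arithmetic factor `a_3` of the problem -/
noncomputable def a : ℝ :=
  ∏' p : Nat.Primes, ((1 - 1 / (p : ℝ)) ^ 9 * ∑' m : ℕ, (((m + 2).choose 2 : ℕ) : ℝ) ^ 2 * (1 / (p : ℝ)) ^ m)

/-- `|ζ(1/2 + δ + iu)|` -/
noncomputable def z (δ u : ℝ) : ℝ := ‖riemannZeta (1 / 2 + δ + u * Complex.I)‖

/-- the mean of `|ζ|^6` over the window `[t, t + H]` -/
noncomputable def M (δ t H : ℝ) : ℝ := (1 / H) * ∫ u in Set.Icc t (t + H), z δ u ^ 6

/-- the same integral over the points of the window where `|ζ| ≤ c`, divided by `H` -/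
noncomputable def Mc (c δ t H : ℝ) : ℝ :=
  (1 / H) * ∫ u in {u : ℝ | u ∈ Set.Icc t (t + H) ∧ z δ u ≤ c}, z δ u ^ 6

/-- the prediction `a_3 (2δ)^(-9)` -/
noncomputable def P (δ : ℝ) : ℝ := a / (2 * δ) ^ 9

/-- the distribution function of the standard normal law -/
noncomputable def Phi (x : ℝ) : ℝ := (ProbabilityTheory.gaussianReal 0 1).real (Set.Iic x)

/-- the position of the length `H` in the transition: `H = δ^(-8) exp (3 x √(2 log (1/δ)))` for `x = pos δ H` -/
noncomputable def pos (δ H : ℝ) : ℝ := Real.log (H * δ ^ 8) / (3 * Real.sqrt (2 * Real.log (1 / δ)))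

lemma a_eq : Run7.h701.WW.ak 3 = a := by
  unfold Run7.h701.WW.ak a
  refine tprod_congr fun p => ?_
  congr 1
  · rw [show (((3:ℝ)) ^ 2) = ((9:ℕ) : ℝ) by norm_num, Real.rpow_natCast]
  · refine tsum_congr fun m => ?_
    rw [Run7.h701.WW.ak3]

lemma pow_eq (δ u : ℝ) : Run7.h701.WW.z δ u ^ (2 * (3:ℝ)) = z δ u ^ 6 := by
  rw [show (2 * (3:ℝ)) = ((6:ℕ) : ℝ) by norm_num, Real.rpow_natCast]
  rfl

lemma M_eq (δ t H : ℝ) : Run7.h701.WW.M 3 δ t H = M δ t H := by
  unfold Run7.h701.WW.M M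
  simp_rw [pow_eq]

lemma Mc_eq (c δ t H : ℝ) : Run7.h701.WW.Mc c 3 δ t H = Mc c δ t H := by
  unfold Run7.h701.WW.Mc Mc
  simp_rw [pow_eq]
  rfl

lemma P_eq {δ : ℝ} (hδ : 0 < δ) : Run7.h701.WW.P 3 δ = P δ := by
  unfold Run7.h701.WW.P P
  rw [a_eq, show (((3:ℝ)) ^ 2) = ((9:ℕ) : ℝ) by norm_num, Real.rpow_neg (by linarith), Real.rpow_natCast]
  rfl

lemma pos_eq (δ H : ℝ) : Run7.h701.WW.pos 3 δ H = pos δ H := by
  unfold Run7.h701.WW.pos pos
  rw [show (((3:ℝ)) ^ 2 - 1) = ((8:ℕ) : ℝ) by norm_num, Real.rpow_natCast]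

theorem result (D θ V : ℝ) (hθ : 8 < θ) (hV : 3 < V) (ε : ℝ) (hε : 0 < ε) :
    0 < a ∧ ∃ A lam δ0 : ℝ, 0 < lam ∧ 0 < δ0 ∧ δ0 ≤ 1 / 16 ∧ ∀ᶠ T : ℝ in atTop, ∀ δ : ℝ, 0 < δ → δ ≤ δ0 →
      lam * Real.log (1 / δ) ^ 2 ≤ δ * Real.log T →
      -- windows of one length
      (∀ H : ℝ, 0 < H → H ≤ δ ^ (-D) →
        volume {t : ℝ | t ∈ Set.Icc 0 T ∧ ¬ |M δ t H / P δ - Phi (pos δ H)| < ε} ≤ ENNReal.ofReal (ε * T)) ∧
      -- the critical length
      volume {t : ℝ | t ∈ Set.Icc 0 T ∧ ¬ |M δ t (1 / δ ^ 8) / P δ - 1 / 2| < ε} ≤ ENNReal.ofReal (ε * T) ∧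
      -- all lengths at once
      volume {t : ℝ | t ∈ Set.Icc 0 T ∧ ¬ ∀ H : ℝ, 0 < H → H ≤ δ ^ (-D) →
        (A ≤ pos δ H → |M δ t H / P δ - 1| < ε) ∧ (pos δ H ≤ -A → M δ t H / P δ < ε)} ≤ ENNReal.ofReal (ε * T) ∧
      -- all lengths up to `T` at once, without the very large values
      volume {t : ℝ | t ∈ Set.Icc 0 T ∧ ¬ ∀ H : ℝ, δ ^ (-θ) ≤ H → t + H ≤ T →
        |Mc (δ ^ (-V)) δ t H / P δ - 1| < ε} ≤ ENNReal.ofReal (ε * T) := by
  refine ⟨by rw [← a_eq]; exact Run7.h701.WW.ak_pos 3, ?_⟩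
  obtain ⟨A, lam, δ0, h1, h2, h3, h4⟩ := Run7.h701.WW.gen 3 (max D 8) θ V (by norm_num)
    (by norm_num; exact hθ) hV ε hε
  refine ⟨A, lam, δ0, h1, h2, h3, ?_⟩
  filter_upwards [h4] with T hT δ hδ hδ0 hl
  obtain ⟨g1, g2, g3⟩ := hT δ hδ hδ0 hl
  simp only [M_eq, Mc_eq, P_eq hδ, pos_eq] at g1 g2 g3
  have hδ1 : δ ≤ 1 := by linarith
  have hD : δ ^ (-D) ≤ δ ^ (-(max D 8)) :=
    Real.rpow_le_rpow_of_exponent_ge hδ hδ1 (neg_le_neg (le_max_left _ _))
  have hcr : 1 / δ ^ 8 ≤ δ ^ (-(max D 8)) := by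
    have e : 1 / δ ^ 8 = δ ^ (-(8:ℝ)) := by
      rw [Real.rpow_neg hδ.le, one_div]
      congr 1
      rw [← Real.rpow_natCast]
      norm_num
    rw [e]
    exact Real.rpow_le_rpow_of_exponent_ge hδ hδ1 (neg_le_neg (le_max_right _ _))
  refine ⟨fun H h0 hH => g1 H h0 (hH.trans hD), ?_, ?_, g3⟩
  · have g4 := g1 (1 / δ ^ 8) (by positivity) hcr
    have e1 : pos δ (1 / δ ^ 8) = 0 := by
      unfold pos
      rw [one_div, inv_mul_cancel₀ (pow_ne_zero _ hδ.ne'), Real.log_one, zero_div]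
    have e2 : Run7.h701.WW.Phi 0 = 1 / 2 := Run7.h701.WW.Phi_zero
    rw [e1, e2] at g4
    exact g4
  · refine le_trans (measure_mono ?_) g2
    rintro t ⟨ht, hc⟩
    exact ⟨ht, fun h => hc fun H h0 hH => h H h0 (hH.trans hD)⟩

end Pool.Agent.Results.MP_39df77_nt.SixthMomentWindows
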