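import Pool.Agent.Run7.h42.TP.Low
import Pool.Agent.N748.MJ.Fin
import Pool.Agent.Run7.h651.WN.EQC

set_option autoImplicit false

/-!
# MP_39df77_nt: shifted sixth moments truncated at a level of the product, near the critical line

Let `d = d(T) → 0` with `d log T / log² (1/d) → ∞`, `h = h(T)` shifts with `|h_j| ≤ √T`, `w` real weights and
`F(t) = ∏_j |ζ(1/2 + d + i(t + h_j))|^(w_j)`, `Λ = ∑_{j, l} w_j w_l log |ζ(1 + 2d + i(h_j - h_l))|`, and suppose
`Λ ≥ c log (1/d)` for some fixed `c > 0`. This is so for all nonnegative weights `w ≠ 0` and all shifts with bounded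
differences; the shifts may coincide or merge at any speed. Let `a(k)` be the arithmetic factor of the shifted moment
`∏ |ζ(1/2 + i(t + h_j))|^(2 k w_j)`. For every `k > 0` the mean over `[0, T]` of `F^(2k)`, taken over the `t` with
`F(t) ≤ exp (V Λ)`, is asymptotic to
* `a(k) exp (k² Λ)` for every `V > k`,
* `Φ(x) a(k) exp (k² Λ)` at the level `exp (k Λ + x √(Λ/2))`, with the normal distribution function `Φ`,
* `a(V) exp ((2 k V - V²) Λ) / (2 (k - V) √(π Λ))` for every `V < k`.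
The proportion of the `t` with `F(t) > exp (V Λ)` is asymptotic to `a(V) exp (- V² Λ) / (2 V √(π Λ))`, `V > 0`, and there
is a limit law for all test functions of `log F - V Λ`, `V` real.

For `m = 3`, `w = (1, 1, 1)`, `k = 1` this is the sixth moment with three arbitrary shifts, `exp Λ` being the product of the
nine numbers `|ζ(1 + 2d + i(h_j - h_l))|`; if all shifts are zero, `exp Λ = ζ(1 + 2d)^9` and `a(1) = a_3`. So the mean of
`F²` over the points with `F ≤ exp (V Λ)` has the conjectured size `a(1) exp Λ` for all `V > 1`, one half of it for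
`V = 1`, and less than any multiple of it for `V < 1`.
-/

namespace Pool.Agent.Results.MP_39df77_nt.TruncatedProducts

open MeasureTheory Filter Topology Complex Finset

noncomputable section

variable {m : ℕ}

/-- The coefficient of `x ^ n` in `(1 - x) ^ (-k)`. -/
def binom (k : ℝ) (n : ℕ) : ℝ := ∏ i ∈ range n, (k + i) / (i + 1)

/-- The coefficient of `x ^ n` in `∏ j, (1 - p ^ (-i h j) x) ^ (-k j)`. -/
def coef (k h : Fin m → ℝ) (p n : ℕ) : ℂ :=
  ∑ μ ∈ piAntidiag univ n, ∏ j, (binom (k j) (μ j) : ℂ) * (p : ℂ) ^ (-(((μ j : ℝ) * h j : ℝ) * I))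

/-- The arithmetic factor of the moment `∏ |ζ(1/2 + i(t + h j))| ^ (2 k j)`: the product over the primes `p` of
`∏_{j, l} |1 - p ^ (-1 - i (h j - h l))| ^ (k j k l) ∑_n |coef k h p n| ^ 2 / p ^ n`. -/
def arith (k h : Fin m → ℝ) : ℝ :=
  ∏' p : Nat.Primes, (∏ j, ∏ l, ‖1 - ((p : ℕ) : ℂ) ^ (-(1 + ((h j - h l : ℝ) : ℂ) * I))‖ ^ (k j * k l)) *
    ∑' n : ℕ, ‖coef k h p n‖ ^ 2 / ((p : ℕ) : ℝ) ^ n

/-- The arithmetic factor `∏_p (1 - 1/p)^(k²) ∑_n (k (k+1) ... (k+n-1) / n!)² p^(-n)`; `ak 3` is the number `a_3`. -/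
def ak (k : ℝ) : ℝ :=
  ∏' p : Nat.Primes, ((1 - 1 / (p : ℝ)) ^ (k ^ 2) *
    ∑' n : ℕ, (∏ i ∈ Finset.range n, (k + i) / ((i : ℝ) + 1)) ^ 2 * (1 / (p : ℝ)) ^ n)

/-- `log F(t)`, where `F(t) = ∏ |ζ(1/2 + δ + i (t + h j))| ^ (w j)`. -/
def logF (δ : ℝ) (h w : Fin m → ℝ) (t : ℝ) : ℝ :=
  ∑ j, w j * Real.log ‖riemannZeta (1 / 2 + δ + (t + h j) * I)‖

/-- `Λ = ∑_{j, l} w_j w_l log |ζ(1 + 2δ + i (h j - h l))|`. -/
def Lam (δ : ℝ) (h w : Fin m → ℝ) : ℝ :=
  ∑ j, ∑ l, w j * w l * Real.log ‖riemannZeta (1 + 2 * δ + (h j - h l) * I)‖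

/-- The mean over `[0, T]` of `F ^ (2k)`, taken over the points with `log F ≤ y`. -/
def moment (δ : ℝ) (h w : Fin m → ℝ) (k y T : ℝ) : ℝ :=
  (1 / T) * ∫ t in {t : ℝ | 0 ≤ t ∧ t ≤ T ∧ logF δ h w t ≤ y}, Real.exp (2 * k * logF δ h w t)

/-- The normal distribution function. -/
def Phi (x : ℝ) : ℝ := (ProbabilityTheory.gaussianReal 0 1 (Set.Iic x)).toReal

/-- The admissible distances to the critical line. -/
def Admissible (d : ℝ → ℝ) : Prop :=
  (∀ᶠ T : ℝ in atTop, 0 < d T) ∧ Tendsto d atTop (𝓝 0) ∧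
    Tendsto (fun T : ℝ => d T * Real.log T / Real.log (1 / d T) ^ 2) atTop atTop

/-- The shifts are at most `√T`, and `Λ` is at least a multiple of `log (1/d)`. -/
def Good (d : ℝ → ℝ) (h : ℝ → Fin m → ℝ) (w : Fin m → ℝ) : Prop :=
  (∀ᶠ T : ℝ in atTop, ∀ j, |h T j| ≤ Real.sqrt T) ∧
    ∃ c : ℝ, 0 < c ∧ ∀ᶠ T : ℝ in atTop, c * Real.log (1 / d T) ≤ Lam (d T) (h T) w

/-- The truncated moments and the level sets of the products. -/
structure Truncated (d : ℝ → ℝ) (h : ℝ → Fin m → ℝ) (w : Fin m → ℝ) : Prop where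
  above : ∀ k V : ℝ, 0 < k → k < V →
    Tendsto (fun T : ℝ => moment (d T) (h T) w k (V * Lam (d T) (h T) w) T /
      (arith (fun j => k * w j) (h T) * Real.exp (k ^ 2 * Lam (d T) (h T) w))) atTop (𝓝 1)
  critical : ∀ k x : ℝ, 0 < k →
    Tendsto (fun T : ℝ => moment (d T) (h T) w k
        (k * Lam (d T) (h T) w + x * Real.sqrt (Lam (d T) (h T) w / 2)) T /
      (arith (fun j => k * w j) (h T) * Real.exp (k ^ 2 * Lam (d T) (h T) w))) atTop (𝓝 (Phi x))
  below : ∀ k V : ℝ, 0 < k → V < k →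
    Tendsto (fun T : ℝ => moment (d T) (h T) w k (V * Lam (d T) (h T) w) T /
      (arith (fun j => V * w j) (h T) * Real.exp ((2 * k * V - V ^ 2) * Lam (d T) (h T) w) /
        (2 * (k - V) * Real.sqrt (Real.pi * Lam (d T) (h T) w)))) atTop (𝓝 1)
  levels : ∀ V b : ℝ, V ≠ 0 →
    Tendsto (fun T : ℝ => ((1 / T) * (volume {t : ℝ | 0 ≤ t ∧ t ≤ T ∧
        0 < V * (logF (d T) (h T) w t - V * Lam (d T) (h T) w + b)}).toReal) /
      (arith (fun j => V * w j) (h T) * Real.exp (2 * V * b - V ^ 2 * Lam (d T) (h T) w) /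
        (2 * |V| * Real.sqrt (Real.pi * Lam (d T) (h T) w)))) atTop (𝓝 1)
  tests : ∀ (V : ℝ) (g : ℝ → ℝ) (S : Finset ℝ) (M : ℝ), Measurable g → (∀ x, x ∉ S → ContinuousAt g x) →
    (∀ x, |g x| ≤ M) → (∀ x, |g x| * (1 + x ^ 2) ≤ M * Real.exp (2 * V * x)) →
    Tendsto (fun T : ℝ => Real.sqrt (Real.pi * Lam (d T) (h T) w) * Real.exp (V ^ 2 * Lam (d T) (h T) w) /
      arith (fun j => V * w j) (h T) *
        ((1 / T) * ∫ t in (0:ℝ)..T, g (logF (d T) (h T) w t - V * Lam (d T) (h T) w))) atTop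
      (𝓝 (∫ x : ℝ, Real.exp (-(2 * V * x)) * g x))

lemma logF_eq (δ : ℝ) (h w : Fin m → ℝ) : Run7.h42.TP.Yw δ h w = logF δ h w := by
  funext t
  unfold Run7.h42.TP.Yw logF Pool.Agent.N748.MG.mz Pool.Agent.N748.MG.pw
  refine Finset.sum_congr rfl fun j _ => ?_
  push_cast
  rfl

lemma Lam_eq {δ : ℝ} (h0 : 0 < δ) (h1 : δ ≤ 1 / 16) (h w : Fin m → ℝ) : Run7.h42.LP.qf δ h w = Lam δ h w := by
  unfold Run7.h42.LP.qf Lam
  refine Finset.sum_congr rfl fun j _ => Finset.sum_congr rfl fun l _ => ?_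
  rw [Run7.h42.LP.RL_log Pool.Agent.N748.MJ.LZB.main h0 h1]
  push_cast
  rfl

lemma arith_eq (k h : Fin m → ℝ) :
    (Pool.Agent.N748.MJ.aV (Pool.Agent.N748.MJ.SM.cc k) (Pool.Agent.N748.MJ.SM.cc k) h).re = arith k h :=
  Run7.h42.LP.aV_arith k h

/-- **Shifted moments truncated at a level of the product.** -/
theorem result :
    (∀ (m : ℕ) (d : ℝ → ℝ) (h : ℝ → Fin m → ℝ) (w : Fin m → ℝ), Admissible d → Good d h w → Truncated d h w) ∧
    -- nonnegative weights and bounded differences of the shifts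
    (∀ (m : ℕ) (d : ℝ → ℝ) (h : ℝ → Fin m → ℝ) (w : Fin m → ℝ) (U : ℝ), Admissible d →
      (∀ᶠ T : ℝ in atTop, ∀ j, |h T j| ≤ Real.sqrt T) → (∀ᶠ T : ℝ in atTop, ∀ j l, |h T j - h T l| ≤ U) →
      (∀ j, 0 ≤ w j) → (∃ j, 0 < w j) → Good d h w) ∧
    -- the arithmetic factor
    (∀ (m : ℕ) (k h : Fin m → ℝ), 0 < arith k h) ∧
    (∀ (m : ℕ) (k : Fin m → ℝ), arith k (fun _ => 0) = ak (∑ j, k j)) := by
  have hZ := Pool.Agent.N748.MJ.LZB.main
  have hJ := Pool.Agent.N748.MJ.jmF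
  have hP := Pool.Agent.N748.MJ.posF
  have hE := Run7.h651.WN.eqc
  have hA := Pool.Agent.N748.MJ.av0F
  have hAd : ∀ {d : ℝ → ℝ}, Admissible d → Pool.Agent.N748.MG.Ad d := fun hd => ⟨hd.1, hd.2.1, hd.2.2⟩
  refine ⟨?_, ?_, ?_, ?_⟩
  · intro m d h w hd hg
    obtain ⟨hh, c, hc, hq0⟩ := hg
    have hsm := Run7.h42.TP.small (hAd hd)
    have hh' : ∀ᶠ T : ℝ in atTop, ∀ j, |h T j| ≤ T ^ ((1:ℝ) / 2) := by
      filter_upwards [hh] with T hT j
      have := hT j
      rwa [Real.sqrt_eq_rpow] at this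
    have hq : ∀ᶠ T : ℝ in atTop, c * Real.log (1 / d T) ≤ Run7.h42.LP.qf (d T) (h T) w := by
      filter_upwards [hq0, hsm] with T hT hT2
      rw [Lam_eq hT2.1 hT2.2.1]
      exact hT
    have hΛ : ∀ᶠ T : ℝ in atTop, 0 < Run7.h42.LP.qf (d T) (h T) w :=
      (Run7.h42.TP.qf_tend (hAd hd) w hc hq).eventually_gt_atTop 0
    have hpos : ∀ (k : Fin m → ℝ) (T : ℝ), 0 < arith k (h T) := fun k T => Run7.h42.LP.arith_pos k (h T)
    refine ⟨?_, ?_, ?_, ?_, ?_⟩
    · intro k V hk hV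
      refine (Run7.h42.TP.supr hJ hP hZ hE (hAd hd) hh' w hc hq hk hV).congr' ?_
      filter_upwards [hsm, hΛ] with T hT hT2
      rw [Lam_eq hT.1 hT.2.1, arith_eq, Real.exp_neg]
      unfold Run7.h42.TP.TM moment
      rw [logF_eq]
      have h1 := hpos (fun j => k * w j) T
      have h2 := Real.exp_pos (k ^ 2 * Lam (d T) (h T) w)
      field_simp
    · intro k x hk
      refine (Run7.h42.TP.crit hJ hP hZ hE (hAd hd) hh' w hc hq hk x).congr' ?_
      filter_upwards [hsm, hΛ] with T hT hT2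
      rw [Lam_eq hT.1 hT.2.1, arith_eq, Real.exp_neg]
      unfold Run7.h42.TP.TM moment
      rw [logF_eq]
      have h1 := hpos (fun j => k * w j) T
      have h2 := Real.exp_pos (k ^ 2 * Lam (d T) (h T) w)
      field_simp
    · intro k V hk hV
      have h0 := (Run7.h42.TP.subc hJ hP hZ hE (hAd hd) hh' w hc hq hk hV).const_mul (2 * (k - V))
      have hkV : 0 < k - V := by linarith
      rw [show 2 * (k - V) * (1 / (2 * (k - V))) = 1 by field_simp] at h0
      refine h0.congr' ?_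
      filter_upwards [hsm, hΛ] with T hT hT2
      rw [Lam_eq hT.1 hT.2.1] at hT2 ⊢
      rw [arith_eq, Real.exp_neg]
      unfold Run7.h42.TP.TM moment
      rw [logF_eq]
      have h1 := hpos (fun j => V * w j) T
      have h2 := Real.exp_pos ((2 * k * V - V ^ 2) * Lam (d T) (h T) w)
      have h3 : 0 < Real.sqrt (Real.pi * Lam (d T) (h T) w) := Real.sqrt_pos.2 (mul_pos Real.pi_pos hT2)
      field_simp
    · intro V b hV
      have h0 := (Run7.h42.TP.levl hJ hP hZ hE (hAd hd) hh' w hc hq hV b).const_mul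
        (2 * |V| / Real.exp (2 * V * b))
      have hV2 : 0 < |V| := abs_pos.2 hV
      have hex := Real.exp_pos (2 * V * b)
      rw [show 2 * |V| / Real.exp (2 * V * b) * (Real.exp (2 * V * b) / (2 * |V|)) = 1 by field_simp] at h0
      refine h0.congr' ?_
      filter_upwards [hsm, hΛ] with T hT hT2
      rw [Lam_eq hT.1 hT.2.1] at hT2 ⊢
      rw [arith_eq, logF_eq, Real.exp_sub]
      have h1 := hpos (fun j => V * w j) T
      have h2 := Real.exp_pos (V ^ 2 * Lam (d T) (h T) w)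
      have h3 : 0 < Real.sqrt (Real.pi * Lam (d T) (h T) w) := Real.sqrt_pos.2 (mul_pos Real.pi_pos hT2)
      field_simp
    · intro V g S M hgm hgc hM hM2
      refine (Run7.h42.TP.tst hJ hP hZ hE (hAd hd) hh' w hc hq V g S hgm hgc M hM hM2).congr' ?_
      filter_upwards [hsm] with T hT
      rw [Lam_eq hT.1 hT.2.1, arith_eq, logF_eq]
  · intro m d h w U hd hh hU hw hw0
    refine ⟨hh, ?_⟩
    obtain ⟨c, hc, h1⟩ := Run7.h42.TP.nondeg hZ (hAd hd) h w hw hw0 hU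
    refine ⟨c, hc, ?_⟩
    filter_upwards [h1, Run7.h42.TP.small (hAd hd)] with T hT hT2
    rw [Lam_eq hT2.1 hT2.2.1] at hT
    exact hT
  · intro m k h
    exact Run7.h42.LP.arith_pos k h
  · intro m k
    rw [← arith_eq, hA m _ _ rfl]
    have e : ∑ j, Pool.Agent.N748.MJ.SM.cc k j = (((∑ j, k j : ℝ)) : ℂ) := by
      unfold Pool.Agent.N748.MJ.SM.cc
      push_cast
      rfl
    rw [e, Pool.Agent.N748.MG.aC_re]
    rfl

end

end Pool.Agent.Results.MP_39df77_nt.TruncatedProducts
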